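import Pool.Agent.K6T.FewC4

/-!
# MP_f8ea30_co, FewFourCycles

Every finite graph with `n` vertices, minimum degree at least `7` and at most `(n + 234) / 26`
cycles of length four has a `K_6` minor. In particular: every graph with minimum degree at least
`7` and without a cycle of length four, whatever its triangles are.
-/

set_option autoImplicit false

namespace Pool.Agent.Results.MP_f8ea30_co.FewFourCycles

open Pool.Agent.K6T

/-- the ordered quadruples `(a, b, c, d)` of vertices which run through a cycle of length four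
of `G`; every such cycle is counted `8` times -/
def orderedFourCycles {V : Type} [Fintype V] [DecidableEq V] (G : SimpleGraph V)
    [DecidableRel G.Adj] : Finset (V × V × V × V) :=
  Finset.univ.filter fun p => G.Adj p.1 p.2.1 ∧ G.Adj p.2.1 p.2.2.1 ∧ G.Adj p.2.2.1 p.2.2.2 ∧
    G.Adj p.2.2.2 p.1 ∧ p.1 ≠ p.2.2.1 ∧ p.2.1 ≠ p.2.2.2

theorem result :
    ∀ (V : Type) [Fintype V] [DecidableEq V] [Nonempty V]
      (G : SimpleGraph V) [DecidableRel G.Adj],
      (∀ v : V, 7 ≤ G.degree v) →
      13 * (orderedFourCycles G).card ≤ 4 * (Fintype.card V + 234) →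
      ∃ f : Fin 6 → Set V,
        (∀ i, (G.induce (f i)).Connected) ∧
        (∀ i j, i ≠ j → Disjoint (f i) (f j)) ∧
        (∀ i j, i ≠ j → ∃ u ∈ f i, ∃ w ∈ f j, G.Adj u w) := by
  intro V _ _ _ G _ hd hC
  have h1 : ∀ v, (nb G Finset.univ v).card = G.degree v := nb_univ_card G
  have h2 : cyc G Finset.univ = orderedFourCycles G := by
    ext ⟨a, b, c, d⟩
    rw [mem_cyc]
    simp [orderedFourCycles]
  have hK : HasK 6 G (Finset.univ : Finset V) := by
    apply core_four G Finset.univ Finset.univ_nonempty
    · intro v _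
      rw [h1 v]
      exact hd v
    · rw [h2, Finset.card_univ]
      exact hC
  obtain ⟨B, -, hB1, hB2, hB3⟩ := hK
  refine ⟨fun i => (B i : Set V), fun i => conn_induce (hB1 i), fun i j hij => ?_,
    fun i j hij => ?_⟩
  · exact Finset.disjoint_coe.2 (hB2 i j hij)
  · obtain ⟨x, hx, y, hy, hxy⟩ := hB3 i j hij
    exact ⟨x, Finset.mem_coe.2 hx, y, Finset.mem_coe.2 hy, hxy⟩

end Pool.Agent.Results.MP_f8ea30_co.FewFourCycles
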