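import Pool.Agent.K6T.Main
import Pool.Agent.K6T.Conv

/-!
# MP_f8ea30_co, FewTriangles

Every finite graph with minimum degree at least `7`, `n` vertices and `T` triangles such that
`60 T ≤ 5 n + 94 ∑ (d(v) - 7) + 2808` has a `K_6` minor. In particular: every triangle-free graph
with minimum degree at least `7`.
-/

set_option autoImplicit false

namespace Pool.Agent.Results.MP_f8ea30_co.FewTriangles

open Pool.Agent.K6T

theorem result :
    ∀ (V : Type) [Fintype V] [DecidableEq V] [Nonempty V]
      (G : SimpleGraph V) [DecidableRel G.Adj],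
      (∀ v : V, 7 ≤ G.degree v) →
      60 * (G.cliqueFinset 3).card ≤
        5 * Fintype.card V + 94 * ∑ v : V, (G.degree v - 7) + 2808 →
      ∃ f : Fin 6 → Set V,
        (∀ i, (G.induce (f i)).Connected) ∧
        (∀ i j, i ≠ j → Disjoint (f i) (f j)) ∧
        (∀ i j, i ≠ j → ∃ u ∈ f i, ∃ w ∈ f j, G.Adj u w) := by
  intro V _ _ _ G _ hd hT
  have h1 : ∀ v, (nb G Finset.univ v).card = G.degree v := nb_univ_card G
  have h2 : dc G Finset.univ = ∑ v : V, (G.degree v - 7) + 7 * Fintype.card V := by
    have h3 : dc G Finset.univ = ∑ v : V, ((G.degree v - 7) + 7) := by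
      rw [dc]
      refine Finset.sum_congr rfl fun v _ => ?_
      rw [h1 v]
      have := hd v
      omega
    rw [h3, Finset.sum_add_distrib, Finset.sum_const, Finset.card_univ, smul_eq_mul]
    ring
  have hK : HasK 6 G (Finset.univ : Finset V) := by
    apply core G Finset.univ Finset.univ_nonempty
    · intro v _
      rw [h1 v]
      exact hd v
    · rw [tri_sum, h2, Finset.card_univ]
      omega
  obtain ⟨B, -, hB1, hB2, hB3⟩ := hK
  refine ⟨fun i => (B i : Set V), fun i => conn_induce (hB1 i), fun i j hij => ?_,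
    fun i j hij => ?_⟩
  · exact Finset.disjoint_coe.2 (hB2 i j hij)
  · obtain ⟨x, hx, y, hy, hxy⟩ := hB3 i j hij
    exact ⟨x, Finset.mem_coe.2 hx, y, Finset.mem_coe.2 hy, hxy⟩

end Pool.Agent.Results.MP_f8ea30_co.FewTriangles
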