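import Pool.Agent.K6T.LocConv

/-!
# MP_f8ea30_co, RichNeighbourhoods

A finite nonempty graph has a `K_6` minor if every vertex `w` of degree at most `7` satisfies one of:
`w` has degree `7` and among any three neighbours of `w` two are adjacent; `w` lies in at
least `2 d(w) - 1` triangles (`d(w) > 0`); for some neighbour `a` of `w` the graph induced on the other neighbours has a `K_4` minor.
-/

set_option autoImplicit false

namespace Pool.Agent.Results.MP_f8ea30_co.RichNeighbourhoods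

open Pool.Agent.K6T

private theorem tri_at {V : Type} [Fintype V] [DecidableEq V] (G : SimpleGraph V)
    [DecidableRel G.Adj] (w : V) :
    2 * ((G.cliqueFinset 3).filter (fun s => w ∈ s)).card ≤ dc G (nb G Finset.univ w) := by
  rw [← ed_card]
  have hex : ∀ s ∈ (G.cliqueFinset 3).filter (fun s => w ∈ s),
      ∃ x y, G.Adj w x ∧ G.Adj w y ∧ G.Adj x y ∧ s = {w, x, y} := by
    intro s hs
    rw [Finset.mem_filter, SimpleGraph.mem_cliqueFinset_iff] at hs
    obtain ⟨hs, hw⟩ := hs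
    obtain ⟨a, b, c, hab, hac, hbc, rfl⟩ := SimpleGraph.is3Clique_iff.1 hs
    simp only [Finset.mem_insert, Finset.mem_singleton] at hw
    rcases hw with rfl | rfl | rfl
    · exact ⟨b, c, hab, hac, hbc, rfl⟩
    · refine ⟨a, c, hab.symm, hbc, hac, ?_⟩
      ext z
      simp only [Finset.mem_insert, Finset.mem_singleton]
      tauto
    · refine ⟨a, b, hac.symm, hbc.symm, hab, ?_⟩
      ext z
      simp only [Finset.mem_insert, Finset.mem_singleton]
      tauto
  have hm : ∀ f ∈ ed G (nb G Finset.univ w), ({w, f.1, f.2} : Finset V) ∈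
      (G.cliqueFinset 3).filter (fun s => w ∈ s) := by
    intro f hf
    rw [mem_ed, mem_nb, mem_nb] at hf
    rw [Finset.mem_filter, SimpleGraph.mem_cliqueFinset_iff]
    exact ⟨SimpleGraph.is3Clique_triple_iff.2 ⟨hf.1.2, hf.2.1.2, hf.2.2⟩,
      Finset.mem_insert_self _ _⟩
  rw [Finset.card_eq_sum_card_fiberwise hm]
  have h2 : ∀ s ∈ (G.cliqueFinset 3).filter (fun s => w ∈ s),
      2 ≤ ((ed G (nb G Finset.univ w)).filter
        (fun f => ({w, f.1, f.2} : Finset V) = s)).card := by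
    intro s hs
    obtain ⟨x, y, hx, hy, hxy, rfl⟩ := hex s hs
    have hsub : ({(x, y), (y, x)} : Finset (V × V)) ⊆ (ed G (nb G Finset.univ w)).filter
        (fun f => ({w, f.1, f.2} : Finset V) = {w, x, y}) := by
      intro f hf
      simp only [Finset.mem_insert, Finset.mem_singleton] at hf
      rcases hf with rfl | rfl
      · rw [Finset.mem_filter, mem_ed, mem_nb, mem_nb]
        exact ⟨⟨⟨Finset.mem_univ _, hx⟩, ⟨Finset.mem_univ _, hy⟩, hxy⟩, rfl⟩
      · rw [Finset.mem_filter, mem_ed, mem_nb, mem_nb]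
        refine ⟨⟨⟨Finset.mem_univ _, hy⟩, ⟨Finset.mem_univ _, hx⟩, hxy.symm⟩, ?_⟩
        ext z
        simp only [Finset.mem_insert, Finset.mem_singleton]
        tauto
    have hc : ({(x, y), (y, x)} : Finset (V × V)).card = 2 := by
      rw [Finset.card_pair]
      intro h
      exact hxy.ne (congrArg Prod.fst h)
    calc 2 = ({(x, y), (y, x)} : Finset (V × V)).card := hc.symm
      _ ≤ _ := Finset.card_le_card hsub
  have h3 := Finset.card_nsmul_le_sum _ _ 2 h2
  rw [smul_eq_mul, mul_comm] at h3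
  exact h3

theorem result :
    ∀ (V : Type) [Fintype V] [DecidableEq V] [Nonempty V]
      (G : SimpleGraph V) [DecidableRel G.Adj],
      (∀ w : V, G.degree w ≤ 7 →
        (G.degree w = 7 ∧ ∀ x y z : V, G.Adj w x → G.Adj w y → G.Adj w z →
          x ≠ y → x ≠ z → y ≠ z → G.Adj x y ∨ G.Adj x z ∨ G.Adj y z) ∨
        (0 < G.degree w ∧
          2 * G.degree w ≤ ((G.cliqueFinset 3).filter (fun s => w ∈ s)).card + 1) ∨
        (∃ a : V, G.Adj w a ∧ ∃ g : Fin 4 → Set V,
          (∀ i, g i ⊆ G.neighborSet w \ {a}) ∧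
          (∀ i, (G.induce (g i)).Connected) ∧
          (∀ i j, i ≠ j → Disjoint (g i) (g j)) ∧
          (∀ i j, i ≠ j → ∃ u ∈ g i, ∃ v ∈ g j, G.Adj u v))) →
      ∃ f : Fin 6 → Set V,
        (∀ i, (G.induce (f i)).Connected) ∧
        (∀ i j, i ≠ j → Disjoint (f i) (f j)) ∧
        (∀ i j, i ≠ j → ∃ u ∈ f i, ∃ w ∈ f j, G.Adj u w) := by
  classical
  intro V _ _ _ G _ hloc
  have h1 : ∀ v, (nb G Finset.univ v).card = G.degree v := nb_univ_card G
  have hK : HasK 6 G (Finset.univ : Finset V) := by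
    refine local_core G Finset.univ Finset.univ_nonempty fun w _ hw => ?_
    rw [h1] at hw
    rcases hloc w hw with ⟨h7, hα⟩ | ⟨h0, ht⟩ | ⟨a, hwa, g, hg, hg1, hg2, hg3⟩
    · refine alpha2 G (nb G Finset.univ w) (by rw [h1, h7]) fun x hx y hy z hz hxy hxz hyz => ?_
      exact hα x y z (mem_nb.1 hx).2 (mem_nb.1 hy).2 (mem_nb.1 hz).2 hxy hxz hyz
    · refine hasK_of_tri (by rw [h1]; exact h0) ?_
      have h2 := tri_at G w
      rw [h1]
      omega
    · refine ⟨a, mem_nb.2 ⟨Finset.mem_univ _, hwa⟩, hasK_of_sets g (fun i z hz => ?_) hg1 hg2 hg3⟩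
      have h2 := hg i hz
      exact mem_erase_nb h2.1 h2.2
  obtain ⟨B, -, hB1, hB2, hB3⟩ := hK
  refine ⟨fun i => (B i : Set V), fun i => conn_induce (hB1 i), fun i j hij => ?_,
    fun i j hij => ?_⟩
  · exact Finset.disjoint_coe.2 (hB2 i j hij)
  · obtain ⟨x, hx, y, hy, hxy⟩ := hB3 i j hij
    exact ⟨x, Finset.mem_coe.2 hx, y, Finset.mem_coe.2 hy, hxy⟩

end Pool.Agent.Results.MP_f8ea30_co.RichNeighbourhoods
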